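import Pool.Agent.Helper14.W5.StE

/-!
# Project W5, module LftOf: lifting symbols from `ZMod (5^M)` to the integers
-/

set_option autoImplicit false

namespace Pool.Agent.Helper47.W5

open Pool.Agent.Helper14.W5
open Pool.Agent.Helper14.CV (Homog EqC act)
open Pool.Agent.Helper28.WK (SymP)

/-- the reduction modulo `5^M` -/
private def rd (M : ℕ) (G : ℤ → ℤ → ℤ) : ℤ → ℤ → ZMod (5 ^ M) :=
  fun p q => ((G p q : ℤ) : ZMod (5 ^ M))

private theorem rd_Sym {M r s : ℕ} {G : ℤ → ℤ → ℤ} (h : SymP 5 r s G) : SymP 5 r s (rd M G) := by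
  refine ⟨?_, ?_⟩
  · intro k p q hk hpq
    change ((G (k * p) (k * q) : ℤ) : ZMod (5 ^ M)) = ((G p q : ℤ) : ZMod (5 ^ M))
    rw [h.1 k p q hk hpq]
  · intro a b c d hdet hb hc
    obtain ⟨e, he⟩ := h.2 a b c d hdet hb hc
    refine ⟨(e : ZMod (5 ^ M)), ?_⟩
    intro p q hpq
    have h1 := he p q hpq
    have h2 : G (a * p + b * q) (c * p + d * q) = G p q + e := h1
    change ((G (a * p + b * q) (c * p + d * q) : ℤ) : ZMod (5 ^ M)) =
      ((G p q : ℤ) : ZMod (5 ^ M)) + e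
    rw [h2, Int.cast_add]

private theorem rd_pf {M q q' : ℕ} (G : ℤ → ℤ → ℤ) (i : Fin 2) (x : ZMod q) (y : ZMod q') :
    pf5 (rd M G) i x y = ((pf5 G i x y : ℤ) : ZMod (5 ^ M)) := by
  unfold pf5 edge5
  rw [Int.cast_sub]
  rfl

private theorem sub_pf {M q q' : ℕ} (G H : ℤ → ℤ → ZMod (5 ^ M)) (i : Fin 2) (x : ZMod q)
    (y : ZMod q') : pf5 (G + -H) i x y = pf5 G i x y - pf5 H i x y := by
  unfold pf5 edge5
  simp only [Pi.add_apply, Pi.neg_apply]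
  abel

/-- from level `(0, r + s)` to level `(r, s)` -/
private theorem sym_up {R : Type} [AddCommGroup R] {r s : ℕ} {g : ℤ → ℤ → R}
    (h : SymP 5 0 (r + s) g) : SymP 5 r s (fun p q => g p (5 ^ r * q)) := by
  have hnz : ∀ {p q : ℤ}, (p ≠ 0 ∨ q ≠ 0) → (p ≠ 0 ∨ (5 : ℤ) ^ r * q ≠ 0) := by
    intro p q hpq
    rcases hpq with h0 | h0
    · exact Or.inl h0
    · exact Or.inr (mul_ne_zero (by positivity) h0)
  refine ⟨?_, ?_⟩
  · intro k p q hk hpq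
    have e := h.1 k p (5 ^ r * q) hk (hnz hpq)
    have e1 : (5 : ℤ) ^ r * (k * q) = k * (5 ^ r * q) := by ring
    change g (k * p) (5 ^ r * (k * q)) = g p (5 ^ r * q)
    rw [e1, e]
  · intro a b c d hdet hb hc
    rw [Nat.cast_ofNat] at hb hc
    obtain ⟨b', hb'⟩ := hb
    obtain ⟨c', hc'⟩ := hc
    obtain ⟨k, hk⟩ := h.2 a b' (5 ^ r * c) d (by rw [← hdet, hb']; ring) (by simp)
      ⟨c', by rw [hc', Nat.cast_ofNat, pow_add]; ring⟩
    refine ⟨k, ?_⟩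
    intro p q hpq
    have e := hk p (5 ^ r * q) (hnz hpq)
    change g (a * p + b * q) (5 ^ r * (c * p + d * q)) = g p (5 ^ r * q) + k
    have e' : g (a * p + b' * (5 ^ r * q)) (5 ^ r * c * p + d * (5 ^ r * q)) =
        g p (5 ^ r * q) + k := e
    have e1 : a * p + b * q = a * p + b' * (5 ^ r * q) := by rw [hb']; ring
    have e2 : (5 : ℤ) ^ r * (c * p + d * q) = 5 ^ r * c * p + d * (5 ^ r * q) := by ring
    rw [e1, e2, e']

/-- from level `(r, s)` to level `(0, r + s)` -/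
private theorem sym_down {R : Type} [AddCommGroup R] {r s : ℕ} {G : ℤ → ℤ → R}
    (h : SymP 5 r s G) : SymP 5 0 (r + s) (fun p q => G (5 ^ r * p) q) := by
  have hnz : ∀ {p q : ℤ}, (p ≠ 0 ∨ q ≠ 0) → ((5 : ℤ) ^ r * p ≠ 0 ∨ q ≠ 0) := by
    intro p q hpq
    rcases hpq with h0 | h0
    · exact Or.inl (mul_ne_zero (by positivity) h0)
    · exact Or.inr h0
  refine ⟨?_, ?_⟩
  · intro k p q hk hpq
    have e := h.1 k (5 ^ r * p) q hk (hnz hpq)
    have e1 : (5 : ℤ) ^ r * (k * p) = k * (5 ^ r * p) := by ring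
    change G (5 ^ r * (k * p)) (k * q) = G (5 ^ r * p) q
    rw [e1, e]
  · intro a b c d hdet _ hc
    rw [Nat.cast_ofNat] at hc
    obtain ⟨c', hc'⟩ := hc
    obtain ⟨k, hk⟩ := h.2 a (5 ^ r * b) (5 ^ s * c') d
      (by rw [← hdet, hc', pow_add]; ring) (by rw [Nat.cast_ofNat]; exact Dvd.intro _ rfl)
      (by rw [Nat.cast_ofNat]; exact Dvd.intro _ rfl)
    refine ⟨k, ?_⟩
    intro p q hpq
    have e := hk (5 ^ r * p) q (hnz hpq)
    have e' : G (a * (5 ^ r * p) + 5 ^ r * b * q) (5 ^ s * c' * (5 ^ r * p) + d * q) =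
        G (5 ^ r * p) q + k := e
    change G (5 ^ r * (a * p + b * q)) (c * p + d * q) = G (5 ^ r * p) q + k
    have e1 : (5 : ℤ) ^ r * (a * p + b * q) = a * (5 ^ r * p) + 5 ^ r * b * q := by ring
    have e2 : c * p + d * q = 5 ^ s * c' * (5 ^ r * p) + d * q := by
      rw [hc', pow_add]
      ring
    rw [e1, e2, e']

theorem hLftOf : S5LftOf := by
  intro hRel hEx hUni hLfm m M g hm hg
  obtain ⟨r, rfl⟩ : ∃ r, m = r + 1 := ⟨m - 1, by omega⟩
  have hg1 : SymP 5 r 1 (fun p q => g p (5 ^ r * q)) := sym_up hg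
  have h1 := hRel (ZMod (5 ^ M)) _ r 0 _ hg1
  obtain ⟨F, hF, hF1⟩ := hLfm r 0 M _ h1
  obtain ⟨G1, hG, hG1⟩ := hEx ℤ _ r 0 F hF
  have h2 : SymP 5 r (0 + 1) (rd M G1 + -(fun p q => g p (5 ^ r * q))) :=
    SymP.add (rd_Sym hG) (SymP.neg hg1)
  have h3 : EqC (rd M G1 + -(fun p q => g p (5 ^ r * q))) 0 := by
    refine hUni (ZMod (5 ^ M)) _ r 0 _ h2 fun i => ?_
    funext x y
    rw [sub_pf, rd_pf, hG1, hF1, sub_self]
    rfl
  refine ⟨fun p q => G1 (5 ^ r * p) q, sym_down hG, ?_⟩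
  obtain ⟨c, hc⟩ := h3
  refine ⟨c, fun p q hpq => ?_⟩
  have hnz : (5 : ℤ) ^ r * p ≠ 0 ∨ q ≠ 0 := by
    rcases hpq with h0 | h0
    · exact Or.inl (mul_ne_zero (by positivity) h0)
    · exact Or.inr h0
  have h5 := hc (5 ^ r * p) q hnz
  have h6 := hg.1 (5 ^ r) p q (by positivity) hpq
  have h7 : ((G1 (5 ^ r * p) q : ℤ) : ZMod (5 ^ M)) +
      -(g (5 ^ r * p) (5 ^ r * q)) = 0 + c := h5
  rw [h6, zero_add] at h7
  change ((G1 (5 ^ r * p) q : ℤ) : ZMod (5 ^ M)) = g p q + c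
  rw [← h7]
  abel

end Pool.Agent.Helper47.W5
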